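import Pool.Agent.W758.AHC.Stm

/-! AHC-STEP. -/

set_option autoImplicit false

namespace Pool.Agent.W12.AHC

open Finset Pool.Agent.W758.AHC

variable {ι κ : Type} [DecidableEq ι] [DecidableEq κ]

omit [DecidableEq κ] in
theorem sum_inter {C x : Finset ι} {g : ι → ℚ} (h : ∀ i ∈ x \ C, g i = 0) :
    ∑ i ∈ x ∩ C, g i = ∑ i ∈ x, g i := by
  refine Finset.sum_subset Finset.inter_subset_left fun i hi hi' => ?_
  apply h
  rw [mem_sdiff]
  refine ⟨hi, fun hc => hi' ?_⟩
  rw [mem_inter]
  exact ⟨hi, hc⟩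

omit [DecidableEq κ] in
theorem sum_split (C x : Finset ι) (g : ι → ℚ) :
    ∑ i ∈ x ∩ C, g i + ∑ i ∈ x \ C, g i = ∑ i ∈ x, g i :=
  Finset.sum_inter_add_sum_sdiff x C g

theorem step : S_STEP := by
  intro h2 h3 ι κ _ _ σ C M k hInv hk _
  obtain ⟨hT, hS, hM, hM'⟩ := hInv
  obtain ⟨R, hR⟩ : ∃ R, R = σ.N k \ C := ⟨_, rfl⟩
  have hNS : ∀ k', σ.N k' ⊆ σ.S := fun k' => Finset.filter_subset _ _
  have hC'S : C ∪ σ.N k ⊆ σ.S := Finset.union_subset hS (hNS k)
  have hv0 : ∀ i ∈ σ.S, i ∉ C → σ.v i = 0 := by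
    intro i hi hiC
    by_contra h
    exact hiC (hT (by unfold Sys.T; rw [mem_filter]; exact ⟨hi, h⟩))
  have hc0 : ∀ k', σ.N k' ⊆ C → ∀ i ∈ σ.S, i ∉ C → σ.c i k' = 0 := by
    intro k' hk' i hi hiC
    by_contra h
    exact hiC (hk' (by unfold Sys.N; rw [mem_filter]; exact ⟨hi, h⟩))
  have hcR : ∀ i ∈ R, σ.c i k ≠ 0 := by
    intro i hi
    rw [hR, mem_sdiff] at hi
    have := hi.1
    unfold Sys.N at this
    rw [mem_filter] at this
    exact this.2
  have hRC : ∀ i ∈ R, i ∈ σ.S ∧ i ∉ C := by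
    intro i hi
    rw [hR, mem_sdiff] at hi
    exact ⟨hNS k hi.1, hi.2⟩
  -- members
  have hxS : ∀ (X : Finset (Finset ι)), σ.Good (C ∪ σ.N k) X → ∀ x ∈ X, ∀ i ∈ x \ C, i ∈ R := by
    intro X hX x hx i hi
    rw [mem_sdiff] at hi
    have h4 := (hX x hx).1 hi.1
    rw [mem_union] at h4
    rw [hR, mem_sdiff]
    exact ⟨h4.resolve_left hi.2, hi.2⟩
  -- the image
  have hY : ∀ (X : Finset (Finset ι)), σ.Good (C ∪ σ.N k) X →
      σ.Good C (X.image fun x => x ∩ C) := by
    intro X hX y hy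
    rw [mem_image] at hy
    obtain ⟨x, hx, rfl⟩ := hy
    obtain ⟨g1, g2, g3⟩ := hX x hx
    refine ⟨Finset.inter_subset_right, ?_, ?_⟩
    · rw [sum_inter, g2]
      intro i hi
      have := hRC i (hxS X hX x hx i hi)
      exact hv0 i this.1 this.2
    · intro k' hk' hN
      have h4 := g3 k' hk' (hN.trans Finset.subset_union_left)
      have h5 : σ.f k' (x ∩ C) = σ.f k' x := by
        unfold Sys.f
        rw [sum_inter]
        intro i hi
        have := hRC i (hxS X hX x hx i hi)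
        exact hc0 k' hN i this.1 this.2
      rw [h5]
      exact h4
  -- the fibres
  have hfib : ∀ (X : Finset (Finset ι)) (y : Finset ι),
      ((X.filter fun x => x ∩ C = y).image fun x => x \ C).card =
        (X.filter fun x => x ∩ C = y).card := by
    intro X y
    apply Finset.card_image_of_injOn
    intro x hx x' hx' he
    rw [mem_coe, mem_filter] at hx hx'
    have e1 : x = (x ∩ C) ∪ (x \ C) := by
      ext i; simp only [mem_union, mem_inter, mem_sdiff]; tauto
    have e2 : x' = (x' ∩ C) ∪ (x' \ C) := by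
      ext i; simp only [mem_union, mem_inter, mem_sdiff]; tauto
    have he' : x \ C = x' \ C := he
    rw [e1, e2, hx.2, hx'.2, he']
  have hval : ∀ (X : Finset (Finset ι)), σ.Good (C ∪ σ.N k) X → ∀ y,
      ∀ z ∈ (X.filter fun x => x ∩ C = y).image (fun x => x \ C), z ⊆ R ∧
        ((σ.w k + ∑ i ∈ y, σ.c i k) + ∑ i ∈ z, σ.c i k = 0 ∨
          (σ.w k + ∑ i ∈ y, σ.c i k) + ∑ i ∈ z, σ.c i k = 1) := by
    intro X hX y z hz
    rw [mem_image] at hz
    obtain ⟨x, hx, rfl⟩ := hz
    rw [mem_filter] at hx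
    obtain ⟨hx1, hx2⟩ := hx
    refine ⟨fun i hi => hxS X hX x hx1 i hi, ?_⟩
    have h4 := (hX x hx1).2.2 k hk Finset.subset_union_right
    have h5 : (σ.w k + ∑ i ∈ y, σ.c i k) + ∑ i ∈ x \ C, σ.c i k = σ.f k x := by
      unfold Sys.f
      rw [← hx2, add_assoc, sum_split]
    rw [h5]
    exact h4
  have hfc : ∀ (X : Finset (Finset ι)), σ.Good (C ∪ σ.N k) X → ∀ y,
      (X.filter fun x => x ∩ C = y).card ≤ SS R.card := by
    intro X hX y
    rw [← hfib X y]
    exact h2 ι R (fun i => σ.c i k) (σ.w k + ∑ i ∈ y, σ.c i k) _ hcR (hval X hX y)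
  rw [← hR]
  refine ⟨hT.trans Finset.subset_union_left, hC'S, ?_, ?_⟩
  · intro X hX
    have h4 := Finset.card_le_mul_card_image (f := fun x => x ∩ C) X (SS R.card)
      (fun y _ => hfc X hX y)
    have h5 := hM _ (hY X hX)
    calc X.card ≤ SS R.card * (X.image fun x => x ∩ C).card := h4
      _ ≤ SS R.card * M := Nat.mul_le_mul_left _ h5
      _ = M * SS R.card := Nat.mul_comm _ _
  · intro u e X hDeg hX hu
    by_cases hc : ∃ i ∈ R, u i ≠ 0
    · have h6 : ∀ y ∈ X.image (fun x => x ∩ C),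
          3 * (X.filter fun x => x ∩ C = y).card ≤ 2 * SS R.card := by
        intro y _
        rw [← hfib X y]
        refine h3 ι R (fun i => σ.c i k) (σ.w k + ∑ i ∈ y, σ.c i k) u (e - ∑ i ∈ y, u i) _ hcR
          hc ?_
        intro z hz
        obtain ⟨v1, v2⟩ := hval X hX y z hz
        refine ⟨v1, v2, ?_⟩
        rw [mem_image] at hz
        obtain ⟨x, hx, rfl⟩ := hz
        rw [mem_filter] at hx
        have h7 := hu x hx.1
        have h8 := sum_split C x u
        rw [hx.2] at h8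
        linarith
      have h5 := hM _ (hY X hX)
      calc 3 * X.card = 3 * ∑ y ∈ X.image (fun x => x ∩ C), (X.filter fun x => x ∩ C = y).card := by
            rw [← Finset.card_eq_sum_card_image]
        _ = ∑ y ∈ X.image (fun x => x ∩ C), 3 * (X.filter fun x => x ∩ C = y).card := by
            rw [Finset.mul_sum]
        _ ≤ ∑ _y ∈ X.image (fun x => x ∩ C), 2 * SS R.card := Finset.sum_le_sum h6
        _ = (X.image (fun x => x ∩ C)).card * (2 * SS R.card) := by
            rw [Finset.sum_const, smul_eq_mul]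
        _ ≤ M * (2 * SS R.card) := Nat.mul_le_mul_right _ h5
        _ = 2 * (M * SS R.card) := by ring
    · push Not at hc
      have hDegC : ¬ σ.Deg C u e := by
        rintro ⟨μ, hμ1, hμ2⟩
        apply hDeg
        refine ⟨μ, fun i hi => ?_, hμ2⟩
        by_cases hiC : i ∈ C
        · exact hμ1 i hiC
        · have hiR : i ∈ R := by
            rw [hR, mem_sdiff]
            exact ⟨(mem_union.1 hi).resolve_left hiC, hiC⟩
          have h7 := hRC i hiR
          rw [hc i hiR, hv0 i h7.1 h7.2, mul_zero]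
      have h8 := hM' u e _ hDegC (hY X hX) (by
        intro y hy
        rw [mem_image] at hy
        obtain ⟨x, hx, rfl⟩ := hy
        rw [sum_inter, hu x hx]
        intro i hi
        exact hc i (hxS X hX x hx i hi))
      have h4 := Finset.card_le_mul_card_image (f := fun x => x ∩ C) X (SS R.card)
        (fun y _ => hfc X hX y)
      calc 3 * X.card ≤ 3 * (SS R.card * (X.image fun x => x ∩ C).card) :=
            Nat.mul_le_mul_left _ h4
        _ = SS R.card * (3 * (X.image fun x => x ∩ C).card) := by ring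
        _ ≤ SS R.card * (2 * M) := Nat.mul_le_mul_left _ h8
        _ = 2 * (M * SS R.card) := by ring

end Pool.Agent.W12.AHC
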